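import Mathlib
import Pool.Agent.Lib.Helper12.IntDist.Defs
import Pool.Agent.Lib.Helper12.IntDist.Main

/-!
# The supremum of the chromatic numbers of integer-distance graphs in general position

We answer the question of Andrasfai and Erdos: the supremum of `χ(G_A)` over all admissible sets
`A` is `ℵ₀`, and it is attained; in particular there is an admissible set `A` for which `χ(G_A)` is
infinite.

Idea of the lower bound: in the Hamming space `[q]^n` a random sparse set, after deleting a point
of each collinear triple, has at most two points on every axis-parallel line, but no large subset
without two points on a common axis-parallel line; so it is not `k`-colourable.  A generic map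
`x ↦ ∑ i, τ i (x i) * z_i ^ 2` with integers `τ i a` and Gaussian integers `z_i` sends it into
general position in the plane, and sends axis-parallel pairs to pairs at integer distance.
Generic translates of the finite sets obtained for `k = 1, 2, …` are then put together.
The upper bound is the classical Erdos-Hajnal argument for graphs in which any two vertices have
only countably many common neighbours.
-/

namespace Pool.Agent.Results.MP_23196e_co.SupChromatic

open Cardinal
open Pool.Agent.Lib.Helper12.IntDist

/-- **The supremum of `χ(G_A)` over all admissible `A` is `ℵ₀`, and it is attained.** -/
theorem result : IsGreatest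
    {κ : Cardinal.{0} | ∃ A : Set Plane, Admissible A ∧ chromaticCard (distGraph A) = κ} ℵ₀ := by
  refine ⟨⟨Geo.toPlane '' Geo.bigSet,
    Geo.admissible_of_GP _ Geo.bigSet_infinite Geo.bigSet_GP,
    le_antisymm (Geo.chromaticCard_le _) Geo.lower⟩, ?_⟩
  rintro κ ⟨A, _, rfl⟩
  exact Geo.chromaticCard_le A

end Pool.Agent.Results.MP_23196e_co.SupChromatic
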